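import Mathlib
import Pool.Agent.Helper18.Peb.Side
import Pool.Agent.Helper18.Peb.St.PB7

set_option autoImplicit false

/-!
PB-9a: content inequality (from `content_star` of PB-7), the units at the centres, and the case of a
target in the core.
-/

namespace Pool.Agent.Helper75.PB

open Finset
open Pool.Agent.Helper18.Peb

variable {V S : Type} [Fintype V] [DecidableEq V] [Fintype S] [DecidableEq S]
  {G : SimpleGraph V} {z : S → V}

theorem card_S (D : Setup G z) : Fintype.card S = 2 ^ 114 + 2 ^ 102 := by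
  have h := card_eq_sum_card_fiberwise (s := (univ : Finset S)) (t := (univ : Finset (Fin 1024)))
    (f := D.R.line) (fun σ _ => by simp)
  rw [card_univ] at h
  rw [h, sum_congr rfl (fun i _ => D.hR i), sum_const, card_univ, Fintype.card_fin, smul_eq_mul]
  norm_num

/-- (*) split the sum over `V` into regions and use `content_star` for each star -/
theorem star_ineq (D : Setup G z) (P : V → ℕ) :
    size P ≤ coreSum D.reg P + 2 ^ 94 * ∑ σ, tau D.reg P σ
      + (2 ^ 114 + 2 ^ 102) * (2 ^ 94 + 69693 * 2 ^ 60) := by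
  have h1 : size P = coreSum D.reg P + ∑ σ : S, ∑ x with D.reg x = some σ, P x := by
    unfold size coreSum
    rw [← sum_fiberwise (univ : Finset V) D.reg P, Fintype.sum_option]
  have h2 : ∀ σ : S, ∑ x with D.reg x = some σ, P x ≤
      2 ^ 94 * tau D.reg P σ + (2 ^ 94 + 69693 * 2 ^ 60) := by
    intro σ
    have h := content_star P (univ.filter fun x => D.reg x = some σ) 69693 34 60 (D.hnstar σ)
    rw [show 34 + 60 = 94 from rfl] at h
    unfold tau
    rw [← add_assoc]
    exact h
  rw [h1]
  calc coreSum D.reg P + ∑ σ : S, ∑ x with D.reg x = some σ, P x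
      ≤ coreSum D.reg P + ∑ σ : S, (2 ^ 94 * tau D.reg P σ + (2 ^ 94 + 69693 * 2 ^ 60)) :=
        Nat.add_le_add_left (sum_le_sum fun σ _ => h2 σ) _
    _ = coreSum D.reg P + 2 ^ 94 * ∑ σ, tau D.reg P σ
      + (2 ^ 114 + 2 ^ 102) * (2 ^ 94 + 69693 * 2 ^ 60) := by
        rw [sum_add_distrib, sum_const, card_univ, card_S D, smul_eq_mul, ← mul_sum, add_assoc]

/-- (`collect_reg` with `m = 60` and `2 ^ 34 * (ζ / 2 ^ 34) ≤ ζ`) -/
theorem solv_tau (D : Setup G z) (P : V → ℕ) :
    Solvable G P (∑ σ, Pi.single (z σ) (2 ^ 34 * tau D.reg P σ)) := by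
  refine (collect_reg D.reg z 60 D.hstar P).mono (le_refl _) ?_
  refine sum_le_sum fun σ _ => single_le_single ?_
  unfold tau
  exact Nat.mul_div_le _ _

end Pool.Agent.Helper75.PB
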